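import Pool.Agent.H68.QC.Targets

/-!
# Board qc_modules, module BSF: quantum gates under formulas with one level more than the table
-/

set_option autoImplicit false

namespace Pool.Agent.H92.QC

open Pool.Agent.H68.QC Pool.Agent.H70.OQ Pool.Agent.H70.RK Pool.Agent.H6.NB Finset

private lemma errT_nn (X : Type) (Y : ℕ → Type) [Fintype X] [∀ i, Fintype (Y i)] (S w G : ℕ)
    {q : ℝ} (k : ℕ) (h0 : 0 < q) (h1 : q ≤ 1) : 0 ≤ errT X Y S w G q k := by
  unfold errT
  have h2 : 0 ≤ 1 - q := by linarith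
  refine add_nonneg (by positivity) (Finset.sum_nonneg fun i _ => add_nonneg (by positivity) ?_)
  exact mul_nonneg (by positivity) (pow_nonneg h2 _)

private lemma fam_swap {V : Type} {Φ1 Φ0 : (List Bool → Bool) → Prop} {t r : ℕ}
    {V1 V0 : (V → Bool) → Prop} (h : Fam V Φ1 Φ0 t r V1 V0) : Fam V Φ0 Φ1 t r V0 V1 := by
  obtain ⟨e, h1, h2, h3⟩ := h
  exact ⟨e, h1, h3, h2⟩

private lemma ic_mono {p p' : Prop} (h : p → p') : ic p ≤ ic p' := by
  classical
  unfold ic
  split_ifs with h1 h2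
  · exact le_rfl
  · exact absurd (h h1) h2
  · exact zero_le_one
  · exact le_rfl

private lemma lw_nn {A : Type} [Fintype A] {q : ℝ} (h0 : 0 ≤ q) (h1 : q ≤ 1) (l : A → Bool) :
    0 ≤ lw q l := by
  unfold lw
  refine Finset.prod_nonneg fun a _ => ?_
  split_ifs
  · exact h0
  · linarith

/-- Quantum gates under formulas with one level more than the table. -/
theorem pf_BSF (hGSL : T_GSL) (hQST : T_QST) (hFMF : T_FMF) : T_BSF := by
  intro X Y _ _ _ _ _ _ mw m t D G G' K i T q q' alg hmw halg hT ht hD hq hq2 hqT hq' hDq' hKq' hG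
    hG'
  have hD1 : (1 : ℝ) ≤ D := by exact_mod_cast hD
  have hq'1 : q' ≤ 1 := by nlinarith
  have hq1 : q ≤ 1 := by linarith
  have hN : 1 ≤ Fintype.card (Node X Y i) := by
    have : Nonempty (Node X Y i) := by
      clear hG halg hqT hKq' hDq'
      induction i with
      | zero => exact inferInstanceAs (Nonempty X)
      | succ i ih => exact inferInstanceAs (Nonempty (Node X Y i × Y i))
    exact Fintype.card_pos
  have hF := hFMF X Y (2 ^ (m + 1)) D G K q' hD hq' hDq' hKq' i hG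
  have h1 := hGSL X Y false K i (Fintype.card (Node X Y i)) (G' * Fintype.card (Node X Y i)) G' q
    (2 ^ ((m + 1) * (i + 2)) * (4 / 2 ^ D))
    (((2 ^ (m + 1) : ℕ) : ℝ) * errT X Y (2 ^ (m + 1)) D G q' i)
    (fun V1 V0 => FmC (Node X Y (i + 1)) (2 ^ (m + 1)) D (i + 2) V0 V1)
    (Fam (Node X Y (i + 1)) (No mw (i + 2) alg) (Yes mw (i + 2) alg) t 0) hq.le hq1
    (mul_nonneg (Nat.cast_nonneg _) (errT_nn X Y _ D G i hq' hq'1)) hN
    (Nat.one_le_iff_ne_zero.2 (Nat.mul_ne_zero (by omega) (by omega))) le_rfl hF ?_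
  · have h2 : ((2 ^ (m + 1) : ℕ) : ℝ) = 2 ^ (m + 1) := by push_cast; rfl
    rw [h2] at h1
    exact h1
  · intro V1 V0 hV
    have h2 := hQST (Node X Y (i + 1)) mw m (i + 2) t D T q alg V0 V1 hmw halg hT ht hD hq hq2 hqT
      (fam_swap hV)
    refine le_trans ?_ h2
    refine Finset.sum_le_sum fun l _ => mul_le_mul_of_nonneg_left (ic_mono fun hn hr => hn ?_)
      (lw_nn hq.le hq1 _)
    obtain ⟨W1, W0, hW, hs⟩ := hr
    exact ⟨W0, W1, hW, fun y hy => ⟨(hs y hy).2, (hs y hy).1⟩⟩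

end Pool.Agent.H92.QC
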