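import Pool.Agent.H68.QC.Targets
import Pool.Agent.H70.OQ.All

/-!
# Board qc_modules, module FMT: formulas
-/

set_option autoImplicit false

namespace Pool.Agent.H92.QC

open Pool.Agent.H68.QC Pool.Agent.H70.OQ Pool.Agent.H70.RK Pool.Agent.H6.NB Finset

private lemma uw_nn {A Z : Type} [Fintype A] [DecidableEq Z] (L : A → Finset Z) (h : A → Z) :
    0 ≤ uw L h := by
  unfold uw
  refine Finset.prod_nonneg fun a _ => ?_
  split_ifs
  · positivity
  · exact le_rfl

private lemma ic_mono {p p' : Prop} (h : p → p') : ic p ≤ ic p' := by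
  classical
  unfold ic
  split_ifs with h1 h2
  · exact le_rfl
  · exact absurd (h h1) h2
  · exact zero_le_one
  · exact le_rfl

private lemma bad_sen {X : Type} {Y : ℕ → Type} [Fintype X] [DecidableEq X]
    [∀ i, DecidableEq (Y i)] {K k : ℕ} {V1 V0 : (Node X Y k → Bool) → Prop}
    {F : (Node X Y k → Bool) → Bool} (h1 : ∀ y, V1 y ↔ F y = true) (h0 : ∀ y, V0 y ↔ F y = false)
    (H : Hid X Y k) (h : Bad true K k V1 V0 H) : K < (senT k F H).card := by
  obtain ⟨h2, h3⟩ := h
  simp only [if_true] at h3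
  have key : ∀ b : Bool, F (tabT k H) ≠ b → {x : X | F (tabU k H x) = b}.ncard ≤
      (senT k F H).card := by
    intro b hb
    rw [← Set.ncard_coe_finset]
    refine Set.ncard_le_ncard ?_ (Finset.finite_toSet _)
    intro x hx
    unfold senT
    rw [Finset.mem_coe, Finset.mem_filter]
    refine ⟨Finset.mem_univ _, fun h => hb ?_⟩
    rw [← h]
    exact hx
  simp only [h1] at h2
  simp only [h0] at h3
  cases hF : F (tabT k H)
  · exact h2.trans_le (key true (by rw [hF]; exact Bool.false_ne_true))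
  · exact h3.trans_le (key false (by rw [hF]; decide))

/-- Formulas. -/
theorem pf_FMT : T_FMT := by
  intro X Y _ _ _ _ _ S w G K q hw hq hq1 hK i hG L V1 V0 hC hL
  obtain ⟨F, hF, h1, h0⟩ := hC
  refine le_trans ?_ (pf_TBI X Y S w G K q hw hq hq1 hK i hG L F hF hL)
  refine Finset.sum_le_sum fun H _ => Finset.sum_le_sum fun h _ =>
    mul_le_mul_of_nonneg_left (ic_mono fun hb => ?_) (uw_nn L h)
  exact bad_sen h1 h0 _ hb

end Pool.Agent.H92.QC
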